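import Mathlib
import Pool.Agent.H.MP_49092c_al.B

set_option autoImplicit false

namespace Pool.Agent.H.MP_7283bc_al

open Pool.Agent.H.MP_49092c_al MvPolynomial Matrix
open Pool.Agent.H.MP_0b1547_co (LQ)

/-- `D` is the matrix of a degree preserving map between graded free modules with generators of
degrees `d'` and `d`, with all entries in the maximal ideal. -/
def Homog {σ K : Type} [Field K] (J : Ideal (MvPolynomial σ K)) {ι κ : Type} (d' : ι → ℕ) (d : κ → ℕ)
    (D : Matrix ι κ (MvPolynomial σ K ⧸ J)) : Prop :=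
  ∀ j k, D j k ∈ piece J (d' j - d k) ∧ (d' j ≤ d k → D j k = 0)

/-- The linear part: keep only the entries of degree one. -/
def linPart {R ι κ : Type} [Zero R] (d' : ι → ℕ) (d : κ → ℕ) (D : Matrix ι κ R) : Matrix ι κ R :=
  fun j k => if d' j = d k + 1 then D j k else 0

/-- Every minimal graded free resolution of finite type has eventually exact linear part. -/
def AbsK {σ K : Type} [Field K] (J : Ideal (MvPolynomial σ K)) : Prop :=
  ∀ (ι : ℕ → Type) [∀ i, Fintype (ι i)] (d : ∀ i, ι i → ℕ)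
    (D : ∀ i, Matrix (ι (i + 1)) (ι i) (MvPolynomial σ K ⧸ J)),
    (∀ i, Homog J (d (i + 1)) (d i) (D i)) →
    (∀ i, Function.Exact (D (i + 1)).vecMulLinear (D i).vecMulLinear) →
    ∃ n, ∀ i ≥ n, Function.Exact (linPart (d (i + 2)) (d (i + 1)) (D (i + 1))).vecMulLinear
      (linPart (d (i + 1)) (d i) (D i)).vecMulLinear

abbrev P := MvPolynomial (Fin 6) (ZMod 2)

noncomputable def quadrics : List P :=
  [X 0 * X 4 - X 0 * X 0,
    X 0 * X 5,
    X 1 * X 1 - X 0 * X 2,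
    X 1 * X 2 - X 0 * X 1,
    X 1 * X 4 - X 0 * X 2,
    X 2 * X 2 - X 0 * X 1 - X 0 * X 2,
    X 2 * X 3 - X 1 * X 5,
    X 2 * X 4 - X 0 * X 1 - X 0 * X 2,
    X 2 * X 5 - X 1 * X 3 - X 1 * X 5,
    X 3 * X 3,
    X 3 * X 4,
    X 3 * X 5 - X 0 * X 3,
    X 4 * X 4,
    X 4 * X 5 - X 0 * X 3,
    X 5 * X 5 - X 0 * X 3]

noncomputable def J : Ideal P :=
  Ideal.span ({q | q ∈ quadrics} ∪ {c | ∃ i j k, c = X i * X j * X k})

abbrev V := Fin 6 → ZMod 2

def be (v u : V) : V :=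
  ![v 1 * u 3 + v 3 * u 1 + v 2 * u 5 + v 5 * u 2,
    v 0 * u 0 + v 0 * u 4 + v 4 * u 0,
    v 1 * u 5 + v 5 * u 1 + v 2 * u 3 + v 3 * u 2 + v 2 * u 5 + v 5 * u 2,
    v 0 * u 1 + v 1 * u 0 + v 1 * u 2 + v 2 * u 1 + v 2 * u 2 + v 2 * u 4 + v 4 * u 2,
    v 0 * u 3 + v 3 * u 0 + v 3 * u 5 + v 5 * u 3 + v 4 * u 5 + v 5 * u 4 + v 5 * u 5,
    v 0 * u 2 + v 2 * u 0 + v 1 * u 1 + v 1 * u 4 + v 4 * u 1 + v 2 * u 2 + v 2 * u 4 + v 4 * u 2]

def B : V →ₗ[ZMod 2] V →ₗ[ZMod 2] V :=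
  LinearMap.mk₂ _ be (fun a b c => by ext k; fin_cases k <;> simp [be] <;> ring)
    (fun a b c => by ext k; fin_cases k <;> simp [be] <;> ring)
    (fun a b c => by ext k; fin_cases k <;> simp [be] <;> ring)
    (fun a b c => by ext k; fin_cases k <;> simp [be] <;> ring)

lemma B_comm (v u : V) : B v u = B u v := by
  ext k; fin_cases k <;> simp [B, be] <;> ring

@[ext] structure Sh where
  a : ZMod 2
  v : V
  w : V

instance : Add Sh := ⟨fun x y => ⟨x.a + y.a, x.v + y.v, x.w + y.w⟩⟩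
instance : Neg Sh := ⟨fun x => ⟨-x.a, -x.v, -x.w⟩⟩
instance : Zero Sh := ⟨0, 0, 0⟩
instance : One Sh := ⟨1, 0, 0⟩
instance : Mul Sh := ⟨fun x y => ⟨x.a * y.a, x.a • y.v + y.a • x.v, x.a • y.w + y.a • x.w + B x.v y.v⟩⟩

@[simp] lemma m1 (x y : Sh) : (x * y).a = x.a * y.a := rfl
@[simp] lemma m2 (x y : Sh) : (x * y).v = x.a • y.v + y.a • x.v := rfl
@[simp] lemma m3 (x y : Sh) : (x * y).w = x.a • y.w + y.a • x.w + B x.v y.v := rfl
@[simp] lemma a1 (x y : Sh) : (x + y).a = x.a + y.a := rfl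
@[simp] lemma a2 (x y : Sh) : (x + y).v = x.v + y.v := rfl
@[simp] lemma a3 (x y : Sh) : (x + y).w = x.w + y.w := rfl
@[simp] lemma n1 (x : Sh) : (-x).a = -x.a := rfl
@[simp] lemma n2 (x : Sh) : (-x).v = -x.v := rfl
@[simp] lemma n3 (x : Sh) : (-x).w = -x.w := rfl
@[simp] lemma z1 : (0 : Sh).a = 0 := rfl
@[simp] lemma z2 : (0 : Sh).v = 0 := rfl
@[simp] lemma z3 : (0 : Sh).w = 0 := rfl
@[simp] lemma o1 : (1 : Sh).a = 1 := rfl
@[simp] lemma o2 : (1 : Sh).v = 0 := rfl
@[simp] lemma o3 : (1 : Sh).w = 0 := rfl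

instance : CommRing Sh := CommRing.ofMinimalAxioms
  (fun a b c => Sh.ext (by simp; ring) (by simp; module) (by simp; module))
  (fun a => Sh.ext (by simp) (by simp) (by simp))
  (fun a => Sh.ext (neg_add_cancel a.a) (neg_add_cancel a.v) (neg_add_cancel a.w))
  (fun a b c => Sh.ext (by simp; ring) (by simp; module) (by simp [B_comm a.v c.v]; module))
  (fun a b => Sh.ext (by simp; ring) (by simp; module) (by simp [B_comm a.v]; module))
  (fun a => Sh.ext (by simp) (by simp) (by simp))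
  (fun a b c => Sh.ext (by simp; ring) (by simp; module) (by simp; module))

instance : Algebra (ZMod 2) Sh := RingHom.toAlgebra
  { toFun := fun c => ⟨c, 0, 0⟩
    map_one' := rfl
    map_mul' := fun _ _ => Sh.ext rfl (by simp) (by simp)
    map_zero' := rfl
    map_add' := fun _ _ => Sh.ext rfl (by simp) (by simp) }

lemma alg (c : ZMod 2) : algebraMap _ Sh c = ⟨c, 0, 0⟩ := rfl

def pa : Sh →ₗ[ZMod 2] ZMod 2 := ⟨⟨Sh.a, fun _ _ => rfl⟩, fun c x => by simp [Algebra.smul_def, alg]⟩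
def pv : Sh →ₗ[ZMod 2] V := ⟨⟨Sh.v, fun _ _ => rfl⟩, fun c x => by simp [Algebra.smul_def (A := Sh), alg]⟩
def pw : Sh →ₗ[ZMod 2] V := ⟨⟨Sh.w, fun _ _ => rfl⟩, fun c x => by simp [Algebra.smul_def (A := Sh), alg]⟩

@[simp] lemma s1 (c : ZMod 2) (x : Sh) : (c • x).a = c * x.a := pa.map_smul c x
@[simp] lemma s2 (c : ZMod 2) (x : Sh) : (c • x).v = c • x.v := pv.map_smul c x
@[simp] lemma s3 (c : ZMod 2) (x : Sh) : (c • x).w = c • x.w := pw.map_smul c x
@[simp] lemma u1 (x y : Sh) : (x - y).a = x.a - y.a := pa.map_sub x y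
@[simp] lemma u2 (x y : Sh) : (x - y).v = x.v - y.v := pv.map_sub x y
@[simp] lemma u3 (x y : Sh) : (x - y).w = x.w - y.w := pw.map_sub x y
@[simp] lemma t1 {ι : Type} (s : Finset ι) (x : ι → Sh) : (∑ i ∈ s, x i).a = ∑ i ∈ s, (x i).a := map_sum pa x s
@[simp] lemma t2 {ι : Type} (s : Finset ι) (x : ι → Sh) : (∑ i ∈ s, x i).v = ∑ i ∈ s, (x i).v := map_sum pv x s
@[simp] lemma t3 {ι : Type} (s : Finset ι) (x : ι → Sh) : (∑ i ∈ s, x i).w = ∑ i ∈ s, (x i).w := map_sum pw x s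

noncomputable def f0 : P →ₐ[ZMod 2] Sh := aeval fun i => (⟨0, Pi.single i 1, 0⟩ : Sh)

lemma f0_XX (i j : Fin 6) : f0 (X i * X j) = (⟨0, 0, be (Pi.single i 1) (Pi.single j 1)⟩ : Sh) :=
  Sh.ext (by simp [f0]) (by simp [f0]) (by simp [f0, B])

abbrev R := P ⧸ J

noncomputable def f : R →ₐ[ZMod 2] Sh := Ideal.Quotient.liftₐ J f0 fun a ha => by
  have : J ≤ RingHom.ker f0 := Ideal.span_le.2 (by
    rintro c (h | ⟨i, j, k, rfl⟩)
    · simp only [quadrics, List.mem_cons, List.not_mem_nil, or_false, Set.mem_setOf_eq] at h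
      rcases h with h | h | h | h | h | h | h | h | h | h | h | h | h | h | h <;> subst h <;>
        simp only [SetLike.mem_coe, RingHom.mem_ker, map_sub, f0_XX] <;>
        exact Sh.ext (by simp) (by simp) (by simp only [u3, m3]; decide)
    · rw [SetLike.mem_coe, RingHom.mem_ker, map_mul, f0_XX]
      exact Sh.ext (by simp) (by simp [f0]) (by simp [f0]))
  exact this ha

noncomputable def x (i : Fin 6) : R := Ideal.Quotient.mk J (X i)

noncomputable def m : Fin 6 → R := ![x 1 * x 3, x 0 * x 0, x 1 * x 5, x 0 * x 1, x 0 * x 3, x 0 * x 2]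

lemma f_x (i : Fin 6) : f (x i) = (⟨0, Pi.single i 1, 0⟩ : Sh) := aeval_X _ i

lemma f_m (i : Fin 6) : f (m i) = (⟨0, 0, Pi.single i 1⟩ : Sh) := by
  fin_cases i <;> simp only [m, map_mul, f_x, Fin.zero_eta, Fin.mk_one, Fin.reduceFinMk, cons_val] <;>
    exact Sh.ext (by simp) (by simp) (by simp only [u3, m3]; decide)

lemma cube (i j k : Fin 6) : x i * x j * x k = 0 :=
  Ideal.Quotient.eq_zero_iff_mem.2 (Ideal.subset_span (Or.inr ⟨i, j, k, rfl⟩))

lemma rel (i j : Fin 6) : x i * x j = ∑ k, be (Pi.single i 1) (Pi.single j 1) k • m k := by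
  have h : ∀ q ∈ quadrics, Ideal.Quotient.mk J q = 0 := fun q hq =>
    Ideal.Quotient.eq_zero_iff_mem.2 (Ideal.subset_span (Or.inl hq))
  simp only [quadrics, List.forall_mem_cons, map_sub, map_mul, sub_eq_zero, sub_sub] at h
  obtain ⟨h1, h2, h3, h4, h5, h6, h7, h8, h9, h10, h11, h12, h13, h14, h15, -⟩ := h
  wlog hij : i ≤ j generalizing i j
  · rw [mul_comm, this j i (le_of_not_ge hij)]
    exact Finset.sum_congr rfl fun k _ => congrArg (· k • m k) (B_comm _ _)
  fin_cases i <;> fin_cases j <;> first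
    | exact absurd hij (by decide)
    | simp [be, m, x, Fin.sum_univ_six, *]
    | simp [be, m, x, Fin.sum_univ_six, *, add_comm]

noncomputable def g : Sh →ₗ[ZMod 2] R :=
  Algebra.linearMap _ _ ∘ₗ pa + (Fintype.linearCombination _ x ∘ₗ pv + Fintype.linearCombination _ m ∘ₗ pw)

lemma g_apply (s : Sh) : g s = algebraMap _ _ s.a + (∑ i, s.v i • x i + ∑ i, s.w i • m i) := rfl

lemma g_f (a : R) : g (f a) = a := by
  obtain ⟨p, rfl⟩ := Ideal.Quotient.mk_surjective a
  induction p using MvPolynomial.induction_on with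
  | C c =>
    rw [show Ideal.Quotient.mk J (C c) = algebraMap _ R c from rfl, AlgHom.commutes,
      Algebra.algebraMap_eq_smul_one, map_smul, g_apply]
    simp [Algebra.algebraMap_eq_smul_one]
  | add p q hp hq => simp only [map_add, hp, hq]
  | mul_X p i hp =>
    rw [map_mul, map_mul]
    conv_rhs => rw [← hp]
    change g (_ * f (x i)) = _ * x i
    generalize f (Ideal.Quotient.mk J p) = s
    have e : ∀ k, m k * x i = 0 := fun k => by fin_cases k <;> exact cube _ _ _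
    have e2 : B s.v (Pi.single i 1) = ∑ j, s.v j • be (Pi.single j 1) (Pi.single i 1) := by
      conv_lhs => rw [pi_eq_sum_univ' s.v, map_sum, LinearMap.sum_apply]
      exact Finset.sum_congr rfl fun j _ => by rw [map_smul]; rfl
    rw [f_x, g_apply, g_apply, m1, m2, m3, e2]
    simp only [add_mul, Finset.sum_mul, smul_mul_assoc, e, rel, Finset.smul_sum, smul_smul]
    rw [Finset.sum_comm]
    simp [Pi.single_apply, Finset.sum_smul, ← Algebra.smul_def]

lemma f_g (s : Sh) : f (g s) = s := by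
  simp only [g_apply, map_add, map_sum, map_smul, f_x, f_m, AlgHom.commutes, alg]
  exact Sh.ext (by simp) (by simp [← pi_eq_sum_univ']) (by simp [← pi_eq_sum_univ'])

lemma f_inj {a b : R} (h : f a = f b) : a = b := by rw [← g_f a, h, g_f]

end Pool.Agent.H.MP_7283bc_al
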